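import Mathlib
import Pool.Agent.Lib.MP_f76626_agR.Main

/-!
# The ninth gonality of the extremal curves of genus 26, 27 and 29

Let `C` be a smooth projective curve over the complex numbers, given by its function field `L`, and
let `d_r` be its gonality sequence. If the genus `g` is 26, 27 or 29 and `d_4 ≤ [(g-1)/2] + 8`, then
`d_9/3 - 2 ≤ [(g-1)/2]/2 + 2`. The curves with `Cliff = [(g-1)/2]` and `Cliff_2 = Cliff/2 + 2` have
`d_4 = Cliff + 8` (known), so the inequality `d_9/3 - 2 > Cliff_2` fails for all of them in genus 26,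
27 and 29.

Proof: Serre duality for function fields of one variable. If `M` is a divisor of degree 20 (21, 23)
with `h⁰(M) ≥ 5` then `K - M` has degree 30 (31, 33) and `h⁰(K - M) ≥ 10`.
-/

set_option autoImplicit false

namespace Pool.Agent.Results.MP_f76626_ag.GenusTwentySix

open Pool.Agent.Lib.MP_44a246_nt Pool.Agent.Lib.MP_44a246_ntR

universe u

/-- Let `L` be a function field of one variable over the complex numbers, of genus 26, 27 or 29, and
`d_r` (`gon`) the gonality sequence. If `d_4 ≤ [(g-1)/2] + 8` then `d_9/3 - 2 ≤ [(g-1)/2]/2 + 2`. -/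
theorem result (L : Type u) [Field L] [Algebra ℂ L] (t : L) (ht : Transcendental ℂ t)
    (hfin : FiniteDimensional (IntermediateField.adjoin ℂ {t}) L)
    (hg : genus ℂ L = 26 ∨ genus ℂ L = 27 ∨ genus ℂ L = 29)
    (h4 : RRD.gon ℂ L 4 ≤ (genus ℂ L - 1) / 2 + 8) :
    (RRD.gon ℂ L 9 : ℝ) / 3 - 2 ≤ (((genus ℂ L - 1) / 2 : ℕ) : ℝ) / 2 + 2 := by
  have h := RRD.main (κ := ℂ) (L := L) ⟨t, ht, hfin⟩ hg h4
  have h' : (2 : ℝ) * (RRD.gon ℂ L 9 : ℝ) ≤ 3 * (((genus ℂ L - 1) / 2 : ℕ) : ℝ) + 24 := by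
    exact_mod_cast h
  linarith

end Pool.Agent.Results.MP_f76626_ag.GenusTwentySix
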